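import Pool.Agent.Helper39.HR.EQV

/-!
# HR, part CRS: the change of the signatures under a crossing
-/

set_option autoImplicit false

open MvPolynomial Pool.Agent.Helper59.LP

namespace Pool.Agent.Helper39.HR.CRS

open Pool.Agent.Helper39.HR.EQV

variable {J : Type} [Fintype J] [DecidableEq J]

omit [Fintype J] [DecidableEq J] in
theorem hom_add (L U : MvPolynomial J ℝ) (hL : L.IsHomogeneous 1) (hU : U.IsHomogeneous 1)
    (t : ℝ) : (L + C t * U).IsHomogeneous 1 := by
  have h := (isHomogeneous_C J t).mul hU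
  rw [zero_add] at h
  exact hL.add h

omit [Fintype J] [DecidableEq J] in
theorem cont_pow (φ : MvPolynomial J ℝ →ₗ[ℝ] ℝ) (L U : MvPolynomial J ℝ) (m : ℕ) :
    ∀ c : MvPolynomial J ℝ, Continuous fun t : ℝ => φ ((L + C t * U) ^ m * c) := by
  induction m with
  | zero =>
    intro c
    simp only [pow_zero, one_mul]
    exact continuous_const
  | succ m ih =>
    intro c
    have h : ∀ t : ℝ, φ ((L + C t * U) ^ (m + 1) * c) =
        φ ((L + C t * U) ^ m * (L * c)) + t * φ ((L + C t * U) ^ m * (U * c)) := by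
      intro t
      have e : (L + C t * U) ^ (m + 1) * c = (L + C t * U) ^ m * (L * c) +
          t • ((L + C t * U) ^ m * (U * c)) := by
        rw [smul_eq_C_mul]
        ring
      rw [e, map_add, map_smul, smul_eq_mul]
    simp only [h]
    exact (ih (L * c)).add (continuous_id.mul (ih (U * c)))

omit [DecidableEq J] in
theorem cont_Qf (φ : MvPolynomial J ℝ →ₗ[ℝ] ℝ) (L U : MvPolynomial J ℝ) (n k : ℕ)
    (x y : homogeneousSubmodule J ℝ k) :
    Continuous fun t : ℝ => Qf φ (L + C t * U) n k x y :=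
  cont_pow φ L U (n - 2 * k) (x.1 * y.1)

/-- evaluation as a functional on the homogeneous polynomials -/
noncomputable def ev (lam : J → ℝ) (k : ℕ) : homogeneousSubmodule J ℝ k →ₗ[ℝ] ℝ :=
  (aeval lam : MvPolynomial J ℝ →ₐ[ℝ] ℝ).toLinearMap.comp (homogeneousSubmodule J ℝ k).subtype

omit [Fintype J] [DecidableEq J] in
theorem ev_apply (lam : J → ℝ) (k : ℕ) (x : homogeneousSubmodule J ℝ k) :
    ev lam k x = eval lam x.1 := by
  simp [ev, MvPolynomial.coe_aeval_eq_eval]

omit [DecidableEq J] in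
/-- the form of `ψ` -/
theorem Qf_psi (φ ψ : MvPolynomial J ℝ →ₗ[ℝ] ℝ) (n k : ℕ) (lam : J → ℝ) (κ : ℝ)
    (hψ : ∀ f, f.IsHomogeneous n → ψ f = φ f + κ * eval lam f) (M : MvPolynomial J ℝ)
    (hM : M.IsHomogeneous 1) (hk : 2 * k ≤ n) (x y : homogeneousSubmodule J ℝ k) :
    Qf ψ M n k x y = Qf φ M n k x y + κ * (eval lam M) ^ (n - 2 * k) * ev lam k x * ev lam k y := by
  rw [Qf_apply, Qf_apply, hψ, ev_apply, ev_apply]
  · simp only [map_mul, map_pow]
    ring
  · have h1 := (hM.pow (n - 2 * k)).mul (((mem_homogeneousSubmodule k x.1).1 x.2).mul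
      ((mem_homogeneousSubmodule k y.1).1 y.2))
    have e : 1 * (n - 2 * k) + (k + k) = n := by omega
    rwa [e] at h1

theorem main (h1 : S_RKQ) (h2 : S_RNK) : S_CRS := by
  intro J _ _ φ ψ n lam κ A B L U ε hκ hAB hBA hA hB hψ hφB hψA hL hU hLl hUl hε hHψ hHφ hH0
    s s' hs hsε hs' hsε'
  have hκ0 : κ ≠ 0 := by
    rintro rfl
    simp at hκ
  have hrk := h2 J φ ψ n lam κ A B hκ0 hAB hBA hA hB hψ hφB hψA
  -- the side of `φ`
  have hφs : ∀ k, 2 * k ≤ n →
      Pool.Agent.Helper59.LP.ip (Qf φ L n k) =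
        Pool.Agent.Helper59.LP.ip (Qf φ (L - C s' * U) n k) ∧
      Pool.Agent.Helper59.LP.ip (-(Qf φ L n k)) =
        Pool.Agent.Helper59.LP.ip (-(Qf φ (L - C s' * U) n k)) := by
    intro k hk
    have h3 := Pool.Agent.Helper14.HR.la2 (fun t => Qf φ (L + C t * (-U)) n k) (rk φ n k) 0 s'
      hs'.le (fun t x y => Qf_symm _ _ _ _ x y) (fun x y => cont_Qf φ L (-U) n k x y) (by
        intro t ht
        have e : L + C t * (-U) = L - C t * U := by ring
        have h4 : HL φ (L + C t * (-U)) n := by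
          rw [e]
          rcases eq_or_lt_of_le ht.1 with h5 | h5
          · rw [← h5]
            simpa using hH0
          · exact hHφ t h5 (lt_of_le_of_lt ht.2 hsε')
        exact (h1 _ φ (L + C t * (-U)) n k (hom_add L (-U) hL hU.neg t) hk).2 h4)
    have e0 : L + C 0 * (-U) = L := by simp
    have e1 : L + C s' * (-U) = L - C s' * U := by ring
    simp only [e0, e1] at h3
    exact h3
  -- the side of `ψ`
  have hψc : ∀ k, 2 * k ≤ n → ∀ t, 0 < t → t < ε → ∀ r, t ≤ r → r < ε →
      Pool.Agent.Helper59.LP.ip (Qf ψ (L + C t * U) n k) =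
        Pool.Agent.Helper59.LP.ip (Qf ψ (L + C r * U) n k) ∧
      Pool.Agent.Helper59.LP.ip (-(Qf ψ (L + C t * U) n k)) =
        Pool.Agent.Helper59.LP.ip (-(Qf ψ (L + C r * U) n k)) := by
    intro k hk t ht htε r htr hrε
    exact Pool.Agent.Helper14.HR.la2 (fun t => Qf ψ (L + C t * U) n k) (rk ψ n k) t r
      htr (fun t x y => Qf_symm _ _ _ _ x y) (fun x y => cont_Qf ψ L U n k x y) (by
        intro t' ht'
        exact (h1 _ ψ (L + C t' * U) n k (hom_add L U hL hU t') hk).2
          (hHψ t' (lt_of_lt_of_le ht ht'.1) (lt_of_le_of_lt ht'.2 hrε)))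
  have hlt : ∀ k, 2 * k ≤ n → k < B.card →
      Pool.Agent.Helper59.LP.ip (Qf ψ (L + C s * U) n k) =
        Pool.Agent.Helper59.LP.ip (Qf φ L n k) ∧
      Pool.Agent.Helper59.LP.ip (-(Qf ψ (L + C s * U) n k)) =
        Pool.Agent.Helper59.LP.ip (-(Qf φ L n k)) := by
    intro k hk hkB
    have hrk' := hrk k hk
    rw [if_neg (by omega), add_zero] at hrk'
    have e2 : Qf ψ L n k = Qf φ L n k := by
      apply LinearMap.ext
      intro x
      apply LinearMap.ext
      intro y
      rw [Qf_psi φ ψ n k lam κ hψ L hL hk x y, hLl, zero_pow (by omega)]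
      ring
    have h3 := Pool.Agent.Helper14.HR.la2 (fun t => Qf ψ (L + C t * U) n k) (rk ψ n k) 0 s
      hs.le (fun t x y => Qf_symm _ _ _ _ x y) (fun x y => cont_Qf ψ L U n k x y) (by
        intro t ht
        rcases eq_or_lt_of_le ht.1 with h5 | h5
        · show Module.finrank ℝ (LinearMap.range (Qf ψ (L + C t * U) n k)) = _
          rw [← h5]
          have e0 : L + C 0 * U = L := by simp
          rw [e0, e2, hrk']
          exact (h1 _ φ L n k hL hk).2 hH0
        · exact (h1 _ ψ (L + C t * U) n k (hom_add L U hL hU t) hk).2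
            (hHψ t h5 (lt_of_le_of_lt ht.2 hsε)))
    have e0 : L + C 0 * U = L := by simp
    simp only [e0, e2] at h3
    exact ⟨h3.1.symm, h3.2.symm⟩
  have hge : ∀ k, 2 * k ≤ n → B.card ≤ k →
      (Even B.card → Pool.Agent.Helper59.LP.ip (Qf ψ (L + C s * U) n k) =
        Pool.Agent.Helper59.LP.ip (Qf φ L n k) + 1 ∧
      Pool.Agent.Helper59.LP.ip (-(Qf ψ (L + C s * U) n k)) =
        Pool.Agent.Helper59.LP.ip (-(Qf φ L n k))) ∧
      (¬ Even B.card → Pool.Agent.Helper59.LP.ip (Qf ψ (L + C s * U) n k) =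
        Pool.Agent.Helper59.LP.ip (Qf φ L n k) ∧
      Pool.Agent.Helper59.LP.ip (-(Qf ψ (L + C s * U) n k)) =
        Pool.Agent.Helper59.LP.ip (-(Qf φ L n k)) + 1) := by
    intro k hk hkB
    have hrk' := hrk k hk
    rw [if_pos hkB] at hrk'
    -- a small parameter
    have e0 : L + C 0 * U = L := by simp
    have hr0 : Module.finrank ℝ (LinearMap.range (Qf φ L n k)) = rk φ n k :=
      (h1 _ φ L n k hL hk).2 hH0
    obtain ⟨δ, hδ, h3⟩ := Pool.Agent.Helper14.HR.la3' (fun t => Qf φ (L + C t * U) n k) 0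
      (fun t x y => Qf_symm _ _ _ _ x y) (fun x y => (cont_Qf φ L U n k x y).continuousAt) (by
        intro t
        show Module.finrank ℝ (LinearMap.range (Qf φ (L + C t * U) n k)) ≤
          Module.finrank ℝ (LinearMap.range (Qf φ (L + C 0 * U) n k))
        rw [e0, hr0]
        exact (h1 _ φ (L + C t * U) n k (hom_add L U hL hU t) hk).1)
    obtain ⟨t, ht, htδ, hts⟩ : ∃ t : ℝ, 0 < t ∧ t < δ ∧ t ≤ s := by
      refine ⟨min (δ / 2) s, lt_min (by linarith) hs, ?_, min_le_right _ _⟩
      exact lt_of_le_of_lt (min_le_left _ _) (by linarith)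
    have h4 := h3 t (by rwa [sub_zero, abs_of_pos ht])
    simp only [e0] at h4
    obtain ⟨h5, h6, h7⟩ := h4
    rw [e0, hr0] at h7
    have h8 := hψc k hk t ht (lt_of_le_of_lt hts hsε) s hts hsε
    have h9 : Module.finrank ℝ (LinearMap.range (Qf ψ (L + C t * U) n k)) =
        Module.finrank ℝ (LinearMap.range (Qf φ (L + C t * U) n k)) + 1 := by
      rw [h7, ← hrk']
      exact (h1 _ ψ (L + C t * U) n k (hom_add L U hL hU t) hk).2
        (hHψ t ht (lt_of_le_of_lt hts hsε))
    have he : eval lam (L + C t * U) = t * eval lam U := by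
      simp [hLl]
    have h10 := Qf_psi φ ψ n k lam κ hψ (L + C t * U) (hom_add L U hL hU t) hk
    have hpos : 0 < (eval lam (L + C t * U)) ^ (n - 2 * k) := by
      rw [he]
      exact pow_pos (mul_pos ht hUl) _
    constructor
    · intro hev
      rw [hev.neg_one_pow, one_mul] at hκ
      have h11 := Pool.Agent.Helper14.HR.la4_pos (Qf φ (L + C t * U) n k)
        (Qf ψ (L + C t * U) n k) (ev lam k) (κ * (eval lam (L + C t * U)) ^ (n - 2 * k))
        (fun x y => Qf_symm _ _ _ _ x y) h10 (mul_pos hκ hpos) h9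
      simp only [ip_eq'] at h5 h6 h11
      refine ⟨?_, ?_⟩
      · rw [← h8.1, h11.1, h5]
      · rw [← h8.2, h11.2, h6]
    · intro hev
      have hodd : Odd B.card := Nat.not_even_iff_odd.1 hev
      rw [hodd.neg_one_pow] at hκ
      have hκ' : κ < 0 := by linarith
      have h11 := Pool.Agent.Helper14.HR.la4_neg (Qf φ (L + C t * U) n k)
        (Qf ψ (L + C t * U) n k) (ev lam k) (κ * (eval lam (L + C t * U)) ^ (n - 2 * k))
        (fun x y => Qf_symm _ _ _ _ x y) h10 (mul_neg_of_neg_of_pos hκ' hpos) h9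
      simp only [ip_eq'] at h5 h6 h11
      refine ⟨?_, ?_⟩
      · rw [← h8.1, h11.1, h5]
      · rw [← h8.2, h11.2, h6]
  -- the signatures
  have hsg : ∀ k, 2 * k ≤ n → sg ψ (L + C s * U) n k =
      sg φ (L - C s' * U) n k + if B.card ≤ k then (-1) ^ B.card else 0 := by
    intro k hk
    obtain ⟨h3, h4⟩ := hφs k hk
    unfold sg
    rw [← h3, ← h4]
    by_cases hkB : B.card ≤ k
    · rw [if_pos hkB]
      by_cases hev : Even B.card
      · obtain ⟨h5, h6⟩ := (hge k hk hkB).1 hev
        rw [h5, h6, hev.neg_one_pow]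
        push_cast
        ring
      · obtain ⟨h5, h6⟩ := (hge k hk hkB).2 hev
        rw [h5, h6, (Nat.not_even_iff_odd.1 hev).neg_one_pow]
        push_cast
        ring
    · rw [if_neg hkB]
      obtain ⟨h5, h6⟩ := hlt k hk (by omega)
      rw [h5, h6, add_zero]
  unfold IDX
  have h0 : sg ψ (L + C s * U) n 0 = (rk ψ n 0 : ℤ) ↔
      sg φ (L - C s' * U) n 0 = (rk φ n 0 : ℤ) := by
    have h3 := hsg 0 (by omega)
    have h4 := hrk 0 (by omega)
    rw [h3, h4]
    by_cases hkB : B.card ≤ 0
    · have hB0 : B.card = 0 := by omega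
      rw [if_pos hkB, if_pos hkB, hB0]
      push_cast
      constructor
      · intro h
        linarith
      · intro h
        linarith
    · rw [if_neg hkB, if_neg hkB]
      simp
  have h5 : ∀ k, 2 * (k + 1) ≤ n →
      (sg ψ (L + C s * U) n (k + 1) - sg ψ (L + C s * U) n k =
        (-1) ^ (k + 1) * ((rk ψ n (k + 1) : ℤ) - (rk ψ n k : ℤ)) ↔
      sg φ (L - C s' * U) n (k + 1) - sg φ (L - C s' * U) n k =
        (-1) ^ (k + 1) * ((rk φ n (k + 1) : ℤ) - (rk φ n k : ℤ))) := by
    intro k hk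
    have h6 := hsg k (by omega)
    have h7 := hsg (k + 1) hk
    have h8 := hrk k (by omega)
    have h9 := hrk (k + 1) hk
    rw [h6, h7, h8, h9]
    rcases lt_trichotomy B.card (k + 1) with h10 | h10 | h10
    · rw [if_pos (by omega), if_pos (by omega), if_pos (by omega), if_pos (by omega)]
      push_cast
      constructor
      · intro h
        linear_combination h
      · intro h
        linear_combination h
    · rw [if_pos (by omega), if_neg (by omega), if_pos (by omega), if_neg (by omega), h10]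
      push_cast
      constructor
      · intro h
        linear_combination h
      · intro h
        linear_combination h
    · rw [if_neg (by omega), if_neg (by omega), if_neg (by omega), if_neg (by omega)]
      push_cast
      constructor
      · intro h
        linear_combination h
      · intro h
        linear_combination h
  rw [h0]
  constructor
  · rintro ⟨h6, h7⟩
    exact ⟨h6, fun k hk => (h5 k hk).1 (h7 k hk)⟩
  · rintro ⟨h6, h7⟩
    exact ⟨h6, fun k hk => (h5 k hk).2 (h7 k hk)⟩

end Pool.Agent.Helper39.HR.CRS
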