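import Pool.Agent.Helper59.HR.Spec
import Pool.Agent.Helper14.HR.IP

/-!
# HR, part EQV: under hard Lefschetz, Hodge–Riemann is a statement on the signatures
-/

set_option autoImplicit false

open MvPolynomial Pool.Agent.Helper59.LP

namespace Pool.Agent.Helper39.HR.EQV

variable {J : Type} [Fintype J] [DecidableEq J]

theorem ip_eq' {V : Type} [AddCommGroup V] [Module ℝ V] (B : LinearMap.BilinForm ℝ V) :
    Pool.Agent.Helper14.HR.ip B = Pool.Agent.Helper59.LP.ip B := rfl

omit [Fintype J] [DecidableEq J] in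
theorem Qf_apply (φ : MvPolynomial J ℝ →ₗ[ℝ] ℝ) (L : MvPolynomial J ℝ) (n k : ℕ)
    (a b : homogeneousSubmodule J ℝ k) :
    Qf φ L n k a b = φ (L ^ (n - 2 * k) * (a.1 * b.1)) := rfl

omit [Fintype J] [DecidableEq J] in
theorem Qf_symm (φ : MvPolynomial J ℝ →ₗ[ℝ] ℝ) (L : MvPolynomial J ℝ) (n k : ℕ)
    (a b : homogeneousSubmodule J ℝ k) : Qf φ L n k a b = Qf φ L n k b a := by
  rw [Qf_apply, Qf_apply, mul_comm a.1 b.1]

/-- multiplication by `L` -/
noncomputable def mulL (L : MvPolynomial J ℝ) (hL : L.IsHomogeneous 1) (k : ℕ) :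
    homogeneousSubmodule J ℝ k →ₗ[ℝ] homogeneousSubmodule J ℝ (k + 1) where
  toFun x := ⟨L * x.1, by
    have h := hL.mul ((mem_homogeneousSubmodule k x.1).1 x.2)
    rw [mem_homogeneousSubmodule]
    rwa [add_comm] at h⟩
  map_add' x y := by
    ext1
    simp [mul_add]
  map_smul' c x := by
    ext1
    simp

theorem ip_zero_of_unit (B : LinearMap.BilinForm ℝ PUnit.{1}) :
    Pool.Agent.Helper14.HR.ip B = 0 := by
  have h := Pool.Agent.Helper14.HR.la1 B (fun x y => by rw [Subsingleton.elim x y])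
  have h2 : Module.finrank ℝ (LinearMap.range B) = 0 := by
    have h3 := LinearMap.finrank_range_add_finrank_ker B
    have h4 : Module.finrank ℝ PUnit.{1} = 0 := Module.finrank_zero_of_subsingleton
    omega
  omega

omit [DecidableEq J] in
/-- degree `0` -/
theorem zero_iff (φ : MvPolynomial J ℝ →ₗ[ℝ] ℝ) (L : MvPolynomial J ℝ) (n : ℕ)
    (hHL : HL φ L n) : HRk φ L n 0 ↔ Pool.Agent.Helper59.LP.ip (-(Qf φ L n 0)) = 0 := by
  constructor
  · intro h
    have h1 := Pool.Agent.Helper14.HR.ip_of_hr (Qf φ L n 0)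
      (0 : LinearMap.BilinForm ℝ PUnit.{1}) 0 1 one_pos (Qf_symm φ L n 0) (fun x y => rfl)
      (fun x => by simp) (fun x _ z => by simp) (by
        intro x _
        have h2 := (h x.1 ((mem_homogeneousSubmodule 0 x.1).1 x.2) (fun j b hj => by omega)).1
        rw [Qf_apply]
        simpa using h2)
    rw [ip_zero_of_unit] at h1
    exact h1
  · intro h a ha _
    have h1 := Pool.Agent.Helper14.HR.hr_of_ip (Qf φ L n 0)
      (0 : LinearMap.BilinForm ℝ PUnit.{1}) 0 1 one_pos (Qf_symm φ L n 0) (fun x y => rfl)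
      (fun x => by simp) (fun x _ z => by simp) (by
        rw [ip_eq', h]
        exact Nat.zero_le _)
      ⟨a, (mem_homogeneousSubmodule 0 a).2 ha⟩ (fun y => by simp)
    rw [Qf_apply] at h1
    refine ⟨by simpa using h1.1, fun h2 => ?_⟩
    have h3 := h1.2 h2
    apply hHL 0 (by omega) a ha
    intro b hb
    exact h3 ⟨b, (mem_homogeneousSubmodule 0 b).2 hb⟩

omit [DecidableEq J] in
/-- degree `k + 1` -/
theorem succ_iff (φ : MvPolynomial J ℝ →ₗ[ℝ] ℝ) (L : MvPolynomial J ℝ) (n k : ℕ)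
    (hL : L.IsHomogeneous 1) (hk : 2 * (k + 1) ≤ n) (hHL : HL φ L n) :
    HRk φ L n (k + 1) ↔
      Pool.Agent.Helper59.LP.ip (-((-1 : ℝ) ^ (k + 1) • Qf φ L n (k + 1))) =
        Pool.Agent.Helper59.LP.ip ((-1 : ℝ) ^ k • Qf φ L n k) := by
  have hs : ∀ x y, ((-1 : ℝ) ^ (k + 1) • Qf φ L n (k + 1)) x y =
      ((-1 : ℝ) ^ (k + 1) • Qf φ L n (k + 1)) y x := by
    intro x y
    simp only [LinearMap.smul_apply]
    rw [Qf_symm]
  have hs0 : ∀ x y, ((-1 : ℝ) ^ k • Qf φ L n k) x y = ((-1 : ℝ) ^ k • Qf φ L n k) y x := by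
    intro x y
    simp only [LinearMap.smul_apply]
    rw [Qf_symm]
  have he : n - 2 * k = n - 2 * (k + 1) + 2 := by omega
  have h0 : ∀ x, ((-1 : ℝ) ^ (k + 1) • Qf φ L n (k + 1)) (mulL L hL k x) (mulL L hL k x) =
      -1 * ((-1 : ℝ) ^ k • Qf φ L n k) x x := by
    intro x
    simp only [LinearMap.smul_apply]
    rw [Qf_apply, Qf_apply, he]
    have e1 : L ^ (n - 2 * (k + 1)) * ((mulL L hL k x).1 * (mulL L hL k x).1) =
        L ^ (n - 2 * (k + 1) + 2) * (x.1 * x.1) := by
      show L ^ (n - 2 * (k + 1)) * ((L * x.1) * (L * x.1)) = _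
      ring
    rw [e1]
    simp only [smul_eq_mul]
    ring
  have hrad : ∀ x, (∀ y, ((-1 : ℝ) ^ k • Qf φ L n k) x y = 0) →
      ∀ z, ((-1 : ℝ) ^ (k + 1) • Qf φ L n (k + 1)) (mulL L hL k x) z = 0 := by
    intro x hx z
    have h1 : ∀ b : MvPolynomial J ℝ, b.IsHomogeneous (n - k) → φ (x.1 * b) = 0 := by
      apply hHL k (by omega) x.1 ((mem_homogeneousSubmodule k x.1).1 x.2)
      intro b hb
      have h2 := hx ⟨b, (mem_homogeneousSubmodule k b).2 hb⟩
      simp only [LinearMap.smul_apply, smul_eq_mul] at h2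
      rcases mul_eq_zero.1 h2 with h3 | h3
      · exact absurd h3 (pow_ne_zero _ (by norm_num))
      · exact h3
    simp only [LinearMap.smul_apply, smul_eq_mul]
    rw [Qf_apply]
    have e1 : L ^ (n - 2 * (k + 1)) * ((mulL L hL k x).1 * z.1) =
        x.1 * (L ^ (n - 2 * (k + 1) + 1) * z.1) := by
      show L ^ (n - 2 * (k + 1)) * ((L * x.1) * z.1) = _
      ring
    rw [e1, h1, mul_zero]
    have h3 := (hL.pow (n - 2 * (k + 1) + 1)).mul ((mem_homogeneousSubmodule _ z.1).1 z.2)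
    have e2 : 1 * (n - 2 * (k + 1) + 1) + (k + 1) = n - k := by omega
    rwa [e2] at h3
  constructor
  · intro h
    have h1 := Pool.Agent.Helper14.HR.ip_of_hr ((-1 : ℝ) ^ (k + 1) • Qf φ L n (k + 1))
      ((-1 : ℝ) ^ k • Qf φ L n k) (mulL L hL k) 1 one_pos hs hs0 h0 hrad (by
        intro x hx
        have h2 := (h x.1 ((mem_homogeneousSubmodule _ x.1).1 x.2) (by
          intro j b hj hb
          obtain rfl : j = k := by omega
          have h3 := hx ⟨b, (mem_homogeneousSubmodule _ b).2 hb⟩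
          simp only [LinearMap.smul_apply, smul_eq_mul] at h3
          rcases mul_eq_zero.1 h3 with h4 | h4
          · exact absurd h4 (pow_ne_zero _ (by norm_num))
          · rw [Qf_apply] at h4
            have e1 : L ^ (n - 2 * (j + 1)) *
                (x.1 * (mulL L hL j ⟨b, (mem_homogeneousSubmodule _ b).2 hb⟩).1) =
                L ^ (n - 2 * (j + 1) + 1) * (x.1 * b) := by
              show L ^ (n - 2 * (j + 1)) * (x.1 * (L * b)) = _
              ring
            rwa [e1] at h4)).1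
        simp only [LinearMap.smul_apply, smul_eq_mul]
        exact h2)
    exact h1
  · intro h a ha hpr
    have h1 := Pool.Agent.Helper14.HR.hr_of_ip ((-1 : ℝ) ^ (k + 1) • Qf φ L n (k + 1))
      ((-1 : ℝ) ^ k • Qf φ L n k) (mulL L hL k) 1 one_pos hs hs0 h0 hrad (le_of_eq h)
      ⟨a, (mem_homogeneousSubmodule _ a).2 ha⟩ (by
        intro y
        simp only [LinearMap.smul_apply, smul_eq_mul]
        rw [Qf_apply]
        have e1 : L ^ (n - 2 * (k + 1)) * (a * (mulL L hL k y).1) =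
            L ^ (n - 2 * (k + 1) + 1) * (a * y.1) := by
          show L ^ (n - 2 * (k + 1)) * (a * (L * y.1)) = _
          ring
        show _ * φ (L ^ (n - 2 * (k + 1)) * (a * (mulL L hL k y).1)) = 0
        rw [e1, hpr k y.1 rfl ((mem_homogeneousSubmodule _ y.1).1 y.2), mul_zero])
    simp only [LinearMap.smul_apply, smul_eq_mul] at h1
    refine ⟨h1.1, fun h2 => ?_⟩
    apply hHL (k + 1) hk a ha
    intro b hb
    have h4 : (-1 : ℝ) ^ (k + 1) * Qf φ L n (k + 1) ⟨a, (mem_homogeneousSubmodule _ a).2 ha⟩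
        ⟨a, (mem_homogeneousSubmodule _ a).2 ha⟩ = 0 := by
      rw [Qf_apply]
      show (-1 : ℝ) ^ (k + 1) * φ (L ^ (n - 2 * (k + 1)) * (a * a)) = 0
      rw [h2, mul_zero]
    have h3 := h1.2 h4 ⟨b, (mem_homogeneousSubmodule _ b).2 hb⟩
    rcases mul_eq_zero.1 h3 with h5 | h5
    · exact absurd h5 (pow_ne_zero _ (by norm_num))
    · exact h5

theorem neg_one_smul' {V : Type} [AddCommGroup V] [Module ℝ V] (B : LinearMap.BilinForm ℝ V) :
    (-1 : ℝ) • B = -B := by
  ext x y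
  simp

theorem one_smul' {V : Type} [AddCommGroup V] [Module ℝ V] (B : LinearMap.BilinForm ℝ V) :
    (1 : ℝ) • B = B := by
  ext x y
  simp

theorem neg_neg' {V : Type} [AddCommGroup V] [Module ℝ V] (B : LinearMap.BilinForm ℝ V) :
    -(-B) = B := by
  ext x y
  simp

theorem main (h1 : S_RKQ) (h2 : S_LA1) : S_EQV := by
  intro J _ _ φ L n hL hHL
  have hrk : ∀ k, 2 * k ≤ n → Pool.Agent.Helper59.LP.ip (Qf φ L n k) +
      Pool.Agent.Helper59.LP.ip (-(Qf φ L n k)) = rk φ n k := by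
    intro k hk
    rw [h2 _ (Qf φ L n k) (Qf_symm φ L n k)]
    exact (h1 J φ L n k hL hk).2 hHL
  have key0 : HRk φ L n 0 ↔ sg φ L n 0 = (rk φ n 0 : ℤ) := by
    rw [zero_iff φ L n hHL]
    have h3 := hrk 0 (by omega)
    unfold sg
    omega
  have key1 : ∀ k, 2 * (k + 1) ≤ n → (HRk φ L n (k + 1) ↔
      sg φ L n (k + 1) - sg φ L n k =
        (-1) ^ (k + 1) * ((rk φ n (k + 1) : ℤ) - (rk φ n k : ℤ))) := by
    intro k hk
    rw [succ_iff φ L n k hL hk hHL]
    have h3 := hrk (k + 1) hk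
    have h4 := hrk k (by omega)
    unfold sg
    rcases Nat.even_or_odd k with he | ho
    · have e1 : (-1 : ℝ) ^ (k + 1) = -1 := (Even.add_one he).neg_one_pow
      have e2 : (-1 : ℝ) ^ k = 1 := he.neg_one_pow
      have e3 : (-1 : ℤ) ^ (k + 1) = -1 := (Even.add_one he).neg_one_pow
      rw [e1, e2, e3, neg_one_smul', one_smul', neg_neg']
      omega
    · have e1 : (-1 : ℝ) ^ (k + 1) = 1 := (Odd.add_one ho).neg_one_pow
      have e2 : (-1 : ℝ) ^ k = -1 := ho.neg_one_pow
      have e3 : (-1 : ℤ) ^ (k + 1) = 1 := (Odd.add_one ho).neg_one_pow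
      rw [e1, e2, e3, neg_one_smul', one_smul']
      omega
  constructor
  · intro h
    exact ⟨key0.1 (h 0 (by omega)), fun k hk => (key1 k hk).1 (h (k + 1) hk)⟩
  · rintro ⟨h0, h3⟩ k hk
    cases k with
    | zero => exact key0.2 h0
    | succ k => exact (key1 k hk).2 (h3 k hk)

end Pool.Agent.Helper39.HR.EQV
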